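import Pool.Agent.H308R2.ZS.Stubs

/-! Task GG: an element with small multiplicities in all fibres. -/

set_option autoImplicit false

open scoped ComplexConjugate Kronecker Matrix.Norms.L2Operator

namespace Pool.Agent.H308R2.ZS.T_GG

open Pool.Agent.H923R2.FP Pool.Agent.H923R2.FZ Pool.Agent.H308R2.ZS

/-- multiplicity for a unitary conjugate of a diagonal matrix -/
theorem mlt_conj {ι : Type} [Fintype ι] [DecidableEq ι] (W : Matrix ι ι ℂ) (w : ι → ℂ)
    (h1 : W * star W = 1) (h2 : star W * W = 1) (c : ℝ) :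
    mlt (W * Matrix.diagonal w * star W) c = Fintype.card {p // w p = (c : ℂ)} := by
  unfold mlt
  have e1 : W * Matrix.diagonal w * star W - (c : ℂ) • (1 : Matrix ι ι ℂ) =
      W * Matrix.diagonal (fun p => w p - (c : ℂ)) * star W := by
    have e2 : Matrix.diagonal (fun p => w p - (c : ℂ)) =
        Matrix.diagonal w - (c : ℂ) • (1 : Matrix ι ι ℂ) := by
      ext p q
      by_cases hpq : p = q
      · subst hpq
        simp
      · simp [hpq]
    rw [e2, mul_sub, sub_mul, mul_smul_comm, mul_one, smul_mul_assoc, h1]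
  rw [e1]
  set M := W * Matrix.diagonal (fun p => w p - (c : ℂ)) * star W with hM
  have hr : M.rank = Fintype.card {p // w p - (c : ℂ) ≠ 0} := by
    rw [hM, Matrix.rank_mul_eq_left_of_isUnit_det, Matrix.rank_mul_eq_right_of_isUnit_det,
      Matrix.rank_diagonal]
    · exact Matrix.isUnit_det_of_right_inverse h1
    · exact Matrix.isUnit_det_of_right_inverse h2
  have hn := LinearMap.finrank_range_add_finrank_ker (Matrix.toLin' M)
  have hr' : Module.finrank ℂ (LinearMap.range (Matrix.toLin' M)) = M.rank := by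
    rw [Matrix.toLin'_apply']
    rfl
  rw [hr', hr, Module.finrank_pi] at hn
  have hc : Fintype.card {p // w p - (c : ℂ) ≠ 0} + Fintype.card {p // w p = (c : ℂ)} =
      Fintype.card ι := by
    have h3 := Fintype.card_subtype_compl (fun p => w p = (c : ℂ))
    have h4 : Fintype.card {p // w p - (c : ℂ) ≠ 0} = Fintype.card {p // ¬ w p = (c : ℂ)} := by
      refine Fintype.card_congr (Equiv.subtypeEquivRight fun p => ?_)
      rw [ne_eq, sub_eq_zero]
    have h5 : Fintype.card {p // w p = (c : ℂ)} ≤ Fintype.card ι := Fintype.card_subtype_le _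
    omega
  omega

/-- the diagonal -/
noncomputable def dg (n : ℕ) (c : ℝ) (p : Ix n) : ℂ :=
  ((p.1 : ℕ) + 1 : ℂ) * (if p.2 = Fin.last (n + 1) then (c : ℂ) else 1)

theorem sum_D0 (n : ℕ) (c : ℝ) :
    ∑ i : Fin (n + 1), ((i : ℕ) + 1 : ℂ) • D0 n i i c = Matrix.diagonal (dg n c) := by
  ext p q
  rw [Matrix.sum_apply]
  simp only [Matrix.smul_apply, D0, Matrix.of_apply, smul_eq_mul]
  by_cases hpq : p = q
  · subst hpq
    rw [Matrix.diagonal_apply_eq, Finset.sum_eq_single p.1]
    · simp [dg]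
    · intro i _ hi
      rw [if_neg, mul_zero]
      rintro ⟨h, _⟩
      exact hi h.symm
    · intro h
      exact absurd (Finset.mem_univ _) h
  · rw [Matrix.diagonal_apply_ne _ hpq]
    refine Finset.sum_eq_zero fun i _ => ?_
    rw [if_neg, mul_zero]
    rintro ⟨h3, h4, h5⟩
    exact hpq (Prod.ext (h3.trans h4.symm) h5)

theorem card_le (n : ℕ) (t c : ℝ) : Fintype.card {p : Ix n // dg n (1 - t) p = (c : ℂ)} ≤ n + 2 := by
  by_cases hc : t = 1 ∧ c = 0
  · obtain ⟨ht, hc⟩ := hc
    subst ht hc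
    have hl : ∀ p : Ix n, dg n (1 - 1) p = ((0 : ℝ) : ℂ) → p.2 = Fin.last (n + 1) := by
      intro p hp
      by_contra h
      unfold dg at hp
      rw [if_neg h, mul_one] at hp
      have : ((p.1 : ℕ) + 1 : ℂ) ≠ 0 := Nat.cast_add_one_ne_zero _
      exact this (by simpa using hp)
    have h1 : Fintype.card {p : Ix n // dg n (1 - 1) p = ((0 : ℝ) : ℂ)} ≤ Fintype.card (Fin (n + 1)) := by
      refine Fintype.card_le_of_injective (fun p => p.1.1) ?_
      rintro ⟨p, hp⟩ ⟨p', hp'⟩ h
      simp only at h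
      refine Subtype.ext (Prod.ext h ?_)
      rw [hl p hp, hl p' hp']
    rw [Fintype.card_fin] at h1
    omega
  · have h1 : Fintype.card {p : Ix n // dg n (1 - t) p = (c : ℂ)} ≤ Fintype.card (Fin (n + 2)) := by
      refine Fintype.card_le_of_injective (fun p => p.1.2) ?_
      rintro ⟨p, hp⟩ ⟨p', hp'⟩ h
      simp only at h
      refine Subtype.ext (Prod.ext ?_ h)
      simp only
      unfold dg at hp hp'
      rw [← h] at hp'
      by_cases hl : p.2 = Fin.last (n + 1)
      · rw [if_pos hl] at hp hp'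
        have h2 : (((p.1 : ℕ) + 1 : ℝ)) * (1 - t) = c := by exact_mod_cast hp
        have h3 : (((p'.1 : ℕ) + 1 : ℝ)) * (1 - t) = c := by exact_mod_cast hp'
        have ht : 1 - t ≠ 0 := by
          intro h4
          rw [h4, mul_zero] at h2
          exact hc ⟨by linarith, h2.symm⟩
        have h5 := mul_right_cancel₀ ht (h2.trans h3.symm)
        have h6 : ((p.1 : ℕ) : ℝ) = ((p'.1 : ℕ) : ℝ) := by linarith
        exact Fin.ext (by exact_mod_cast h6)
      · rw [if_neg hl, mul_one] at hp hp'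
        have h2 : (((p.1 : ℕ) + 1 : ℝ)) = c := by exact_mod_cast hp
        have h3 : (((p'.1 : ℕ) + 1 : ℝ)) = c := by exact_mod_cast hp'
        have h6 : ((p.1 : ℕ) : ℝ) = ((p'.1 : ℕ) : ℝ) := by linarith
        exact Fin.ext (by exact_mod_cast h6)
    rw [Fintype.card_fin] at h1
    exact h1

theorem t_GG (hPHM : S_PHM) (hWU : S_WU) : S_GG := by
  intro n
  obtain ⟨φ, k, v, hV⟩ := hPHM n
  obtain ⟨-, -, -, -, -, -, -, hU⟩ := hWU n
  have hval : ∀ t : unitInterval,
      ((∑ i : Fin (n + 1), ((i : ℕ) + 1 : ℂ) • φ i i : dimDrop n) : C(unitInterval, MM n)) t =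
        WW n t * Matrix.diagonal (dg n (1 - t)) * star (WW n t) := by
    intro t
    rw [← sum_D0, AddSubmonoidClass.coe_finset_sum]
    rw [ContinuousMap.sum_apply, Finset.mul_sum, Finset.sum_mul]
    refine Finset.sum_congr rfl fun i _ => ?_
    have h1 : ((((i : ℕ) + 1 : ℂ) • φ i i : dimDrop n) : C(unitInterval, MM n)) t =
        ((i : ℕ) + 1 : ℂ) • phf n i i t := by
      rw [← hV.ph i i t]
      rfl
    rw [h1]
    unfold phf
    rw [mul_smul_comm, smul_mul_assoc]
  refine ⟨∑ i : Fin (n + 1), ((i : ℕ) + 1 : ℂ) • φ i i, ?_, fun t c => ?_⟩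
  · refine Subtype.ext (ContinuousMap.ext fun t => ?_)
    have h1 : ((star (∑ i : Fin (n + 1), ((i : ℕ) + 1 : ℂ) • φ i i) : dimDrop n) :
        C(unitInterval, MM n)) t = star (((∑ i : Fin (n + 1), ((i : ℕ) + 1 : ℂ) • φ i i : dimDrop n) :
        C(unitInterval, MM n)) t) := rfl
    rw [h1, hval, star_mul, star_mul, star_star, mul_assoc]
    congr 2
    rw [Matrix.star_eq_conjTranspose, Matrix.diagonal_conjTranspose]
    congr 1
    funext p
    unfold dg
    simp only [Pi.star_apply, star_mul']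
    split_ifs <;> simp
  · rw [hval, mlt_conj _ _ (hU t).1 (hU t).2]
    exact card_le n t c

end Pool.Agent.H308R2.ZS.T_GG
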